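import Pool.Agent.helper53.AU.SpecG1

namespace Pool.Agent.helper53.AU

open scoped Classical

/-- every 2-subgroup has an element whose order is at least half of the order of the subgroup -/
theorem MN_ord {H : Type} [Group H] [Finite H] (S : Sylow 2 H) (C : Subgroup H)
    (hCS : C ≤ (S : Subgroup H)) (hC : IsCyclic C) (hcard : Nat.card S ≤ 2 * Nat.card C)
    (Q : Subgroup H) (hQ : IsPGroup 2 Q) : ∃ x ∈ Q, Nat.card Q ≤ 2 * orderOf x := by
  obtain ⟨P, hP⟩ := hQ.exists_le_sylow
  obtain ⟨g, hg⟩ := MulAction.exists_smul_eq H S P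
  obtain ⟨c0, hc0⟩ := hC.exists_generator
  have hordc : orderOf (c0 : H) = Nat.card C := by
    rw [Subgroup.orderOf_coe]
    exact orderOf_eq_card_of_forall_mem_zpowers hc0
  have hordc' : orderOf (g * (c0 : H) * g⁻¹) = Nat.card C := by
    rw [← hordc]
    exact orderOf_injective (MulAut.conj g).toMonoidHom (MulAut.conj g).injective (c0 : H)
  have hmem : g * (c0 : H) * g⁻¹ ∈ (P : Subgroup H) := by
    rw [← hg, Sylow.smul_def]
    exact ⟨(c0 : H), hCS c0.2, rfl⟩
  have hPS : Nat.card P = Nat.card S := by
    rw [Sylow.card_eq_multiplicity, Sylow.card_eq_multiplicity]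
  set c' : H := g * (c0 : H) * g⁻¹ with hc'
  have hZP : Subgroup.zpowers c' ≤ (P : Subgroup H) := by
    rw [Subgroup.zpowers_le]; exact hmem
  have hZcard : Nat.card (Subgroup.zpowers c') = Nat.card C := by
    rw [Nat.card_zpowers, hordc']
  have h1 : Nat.card (Subgroup.zpowers c') * (Subgroup.zpowers c').relIndex (P : Subgroup H)
      = Nat.card P := by
    have h2 := Subgroup.card_mul_index ((Subgroup.zpowers c').subgroupOf (P : Subgroup H))
    have h3 : Nat.card ((Subgroup.zpowers c').subgroupOf (P : Subgroup H)) =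
        Nat.card (Subgroup.zpowers c') :=
      Nat.card_congr (Subgroup.subgroupOfEquivOfLe hZP).toEquiv
    rw [h3] at h2
    exact h2
  have hpos : 0 < Nat.card (Subgroup.zpowers c') := Nat.card_pos
  have h2 : (Subgroup.zpowers c').relIndex (P : Subgroup H) ≤ 2 := by
    by_contra hcon
    push Not at hcon
    have h3 : Nat.card (Subgroup.zpowers c') * 3 ≤
        Nat.card (Subgroup.zpowers c') * (Subgroup.zpowers c').relIndex (P : Subgroup H) :=
      Nat.mul_le_mul_left _ hcon
    rw [h1, hPS] at h3
    omega
  have hne : (Subgroup.zpowers c').relIndex (P : Subgroup H) ≠ 0 := by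
    intro h0
    rw [h0, mul_zero] at h1
    have : 0 < Nat.card P := Nat.card_pos
    omega
  have h4 : (Subgroup.zpowers c').relIndex Q ≤ 2 :=
    (Subgroup.relIndex_le_of_le_right hP hne).trans h2
  have h5 : Nat.card ((Subgroup.zpowers c').subgroupOf Q) * (Subgroup.zpowers c').relIndex Q
      = Nat.card Q := Subgroup.card_mul_index _
  have hcyc : IsCyclic ((Subgroup.zpowers c').subgroupOf Q) := by
    have hinj : Function.Injective
        (((Subgroup.zpowers c').subgroupOf Q).subtype.comp
          (MonoidHom.id _) : _ →* Q) := Subtype.val_injective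
    let f : ((Subgroup.zpowers c').subgroupOf Q) →* Subgroup.zpowers c' :=
      { toFun := fun x => ⟨((x : Q) : H), x.2⟩
        map_one' := rfl
        map_mul' := fun _ _ => rfl }
    have hf : Function.Injective f := by
      intro a b hab
      have : ((a : Q) : H) = ((b : Q) : H) := congrArg (fun z : Subgroup.zpowers c' => (z : H)) hab
      exact Subtype.ext (Subtype.ext this)
    exact isCyclic_of_injective f hf
  obtain ⟨y, hy⟩ := hcyc.exists_generator
  refine ⟨((y : Q) : H), (y : Q).2, ?_⟩
  have hoy : orderOf ((y : Q) : H) = Nat.card ((Subgroup.zpowers c').subgroupOf Q) := by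
    rw [Subgroup.orderOf_coe, Subgroup.orderOf_coe]
    exact orderOf_eq_card_of_forall_mem_zpowers hy
  rw [hoy, ← h5]
  nlinarith [Nat.zero_le (Nat.card ((Subgroup.zpowers c').subgroupOf Q))]

/-- MN -/
theorem MN (hTC : TC_stmt) (hOC : OC_stmt) : MN_stmt := by
  intro H _ _ S C E hCS hC hcard hEn hE1 hmin hEe
  by_cases hab : ∀ x ∈ E, ∀ y ∈ E, x * y = y * x
  · -- `E` commutative
    left
    let N : Subgroup H :=
      { carrier := {x | x ∈ E ∧ x * x = 1}
        one_mem' := ⟨E.one_mem, by simp⟩
        mul_mem' := by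
          rintro a b ⟨ha, ha2⟩ ⟨hb, hb2⟩
          refine ⟨E.mul_mem ha hb, ?_⟩
          have h := hab a ha b hb
          calc a * b * (a * b) = a * (b * a) * b := by group
            _ = a * (a * b) * b := by rw [h]
            _ = (a * a) * (b * b) := by group
            _ = 1 := by rw [ha2, hb2, one_mul]
        inv_mem' := by
          rintro a ⟨ha, ha2⟩
          refine ⟨E.inv_mem ha, ?_⟩
          rw [← mul_inv_rev, ha2, inv_one] }
    have hNn : N.Normal := by
      refine ⟨?_⟩
      rintro n ⟨hn, hn2⟩ g
      refine ⟨hEn.conj_mem n hn g, ?_⟩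
      calc g * n * g⁻¹ * (g * n * g⁻¹) = g * (n * n) * g⁻¹ := by group
        _ = 1 := by rw [hn2]; group
    have hNle : N ≤ E := fun x hx => hx.1
    have hdvd : 2 ∣ Nat.card E := hEe.two_dvd
    obtain ⟨x, hx⟩ := exists_prime_orderOf_dvd_card' 2 hdvd
    have hxN : (x : H) ∈ N := by
      refine ⟨x.2, ?_⟩
      have h2 : x ^ 2 = 1 := by rw [← hx]; exact pow_orderOf_eq_one x
      have h3 : ((x ^ 2 : E) : H) = 1 := by rw [h2]; rfl
      rw [Subgroup.coe_pow, pow_two] at h3
      exact h3
    have hNE : N = E := by
      rcases hmin N hNn hNle with h | h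
      · exfalso
        rw [h, Subgroup.mem_bot] at hxN
        have : x = 1 := Subtype.ext hxN
        rw [this, orderOf_one] at hx
        omega
      · exact h
    have hsq : ∀ x ∈ E, x * x = 1 := by
      intro x hx
      rw [← hNE] at hx
      exact hx.2
    refine ⟨hsq, ?_⟩
    have hpg : IsPGroup 2 E := by
      intro x
      refine ⟨1, ?_⟩
      apply Subtype.ext
      rw [Subgroup.coe_pow, pow_one, pow_two]
      exact hsq x x.2
    obtain ⟨y, hyE, hy⟩ := MN_ord S C hCS hC hcard E hpg
    have hoy : orderOf y ≤ 2 := by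
      apply orderOf_le_of_pow_eq_one (by norm_num)
      rw [pow_two]; exact hsq y hyE
    omega
  · right
    push Not at hab
    obtain ⟨u, huE, v, hvE, huv⟩ := hab
    -- minimal subgroup normalised by `E`
    have hne : {T : Subgroup H | T ≠ ⊥ ∧ T ≤ E ∧ ∀ e ∈ E, ∀ t ∈ T, e * t * e⁻¹ ∈ T}.Nonempty :=
      ⟨E, hE1, le_refl _, fun e he t ht => E.mul_mem (E.mul_mem he ht) (E.inv_mem he)⟩
    obtain ⟨T, ⟨hT1, hTE, hTn⟩, hTmin⟩ :=
      (wellFounded_lt : WellFounded ((· < ·) : Subgroup H → Subgroup H → Prop)).has_min _ hne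
    have hTmin' : ∀ N : Subgroup H, N ≤ T → (∀ e ∈ E, ∀ t ∈ N, e * t * e⁻¹ ∈ N) →
        N = ⊥ ∨ N = T := by
      intro N hN hNn
      by_cases h1 : N = ⊥
      · exact Or.inl h1
      · right
        by_contra h2
        exact hTmin N ⟨h1, hN.trans hTE, hNn⟩ (lt_of_le_of_ne hN h2)
    by_cases hTe : T = E
    · subst hTe
      refine ⟨?_, ⟨⟨u, huE⟩, ⟨v, hvE⟩, ?_⟩⟩
      · have hnt : Nontrivial T := by
          rw [Subgroup.nontrivial_iff_ne_bot]; exact hE1
        refine { exists_pair_ne := hnt.exists_pair_ne, eq_bot_or_eq_top_of_normal := ?_ }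
        intro N hN
        rcases hTmin' (N.map T.subtype) (by
            rintro x ⟨y, hy, rfl⟩
            exact y.2) (by
            rintro e he t ⟨y, hy, rfl⟩
            exact ⟨⟨e, he⟩ * y * ⟨e, he⟩⁻¹, hN.conj_mem y hy ⟨e, he⟩, rfl⟩) with h | h
        · left
          rw [Subgroup.map_eq_bot_iff_of_injective _ T.subtype_injective] at h
          exact h
        · right
          rw [eq_top_iff]
          rintro x -
          have hx : (x : H) ∈ N.map T.subtype := by rw [h]; exact x.2
          obtain ⟨y, hy, hyx⟩ := hx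
          have : y = x := Subtype.ext hyx
          rw [← this]; exact hy
      · intro h
        exact huv (congrArg (fun z : T => (z : H)) h)
    · exfalso
      -- conjugates of `T`
      let K : H → Subgroup H := fun h => T.map (MulAut.conj h).toMonoidHom
      have hKmem : ∀ h t, t ∈ T → h * t * h⁻¹ ∈ K h := fun h t ht => ⟨t, ht, rfl⟩
      have hKE : ∀ h, K h ≤ E := by
        rintro h x ⟨t, ht, rfl⟩
        exact hEn.conj_mem t (hTE ht) h
      have hKn : ∀ h, ∀ e ∈ E, ∀ t ∈ K h, e * t * e⁻¹ ∈ K h := by
        rintro h e he x ⟨t, ht, rfl⟩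
        have h1 : (h⁻¹ * e * h) * t * (h⁻¹ * e * h)⁻¹ ∈ T := by
          apply hTn _ _ _ ht
          have := hEn.conj_mem e he h⁻¹
          rwa [inv_inv] at this
        refine ⟨_, h1, ?_⟩
        show h * ((h⁻¹ * e * h) * t * (h⁻¹ * e * h)⁻¹) * h⁻¹ = e * (h * t * h⁻¹) * e⁻¹
        group
      have hKcard : ∀ h, Nat.card (K h) = Nat.card T := fun h =>
        (Nat.card_congr (T.equivMapOfInjective _ (MulAut.conj h).injective).toEquiv).symm
      -- the union of conjugates generates `E`
      have hsup : (⨆ h, K h) = E := by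
        have hn : (⨆ h, K h).Normal := by
          refine ⟨?_⟩
          intro n hn g
          have h2 : (⨆ h, K h).map (MulAut.conj g).toMonoidHom ≤ ⨆ h, K h := by
            rw [Subgroup.map_iSup]
            apply iSup_le
            intro h
            refine le_trans ?_ (le_iSup K (g * h))
            rintro x ⟨y, ⟨t, ht, rfl⟩, rfl⟩
            refine ⟨t, ht, ?_⟩
            show (g * h) * t * (g * h)⁻¹ = g * (h * t * h⁻¹) * g⁻¹
            group
          exact h2 ⟨n, hn, rfl⟩
        rcases hmin _ hn (iSup_le hKE) with h | h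
        · exfalso
          apply hT1
          rw [eq_bot_iff, ← h]
          refine le_trans ?_ (le_iSup K 1)
          intro t ht
          refine ⟨t, ht, ?_⟩
          show 1 * t * (1 : H)⁻¹ = t
          group
        · exact h
      -- two different conjugates commute
      have hbot' : ∀ h, K h ≠ T → T ⊓ K h = ⊥ := by
        intro h hne
        rcases hTmin' (T ⊓ K h) inf_le_left (fun e he t ht =>
          ⟨hTn e he t ht.1, hKn h e he t ht.2⟩) with h1 | h1
        · exact h1
        · exfalso
          apply hne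
          have h2 : T ≤ K h := by rw [← h1]; exact inf_le_right
          symm
          exact Subgroup.eq_of_le_of_card_ge h2 (le_of_eq (hKcard h))
      have hint : ∀ h, K h ≠ T → ∀ x ∈ T, ∀ y ∈ K h, x * y = y * x := by
        intro h hne x hx y hy
        have hbot : T ⊓ K h = ⊥ := hbot' h hne
        have h3 : x * y * x⁻¹ * y⁻¹ ∈ T ⊓ K h := by
          refine ⟨?_, ?_⟩
          · have h4 := hTn y (hKE h hy) x⁻¹ (T.inv_mem hx)
            have h5 := T.mul_mem hx h4
            have h6 : x * y * x⁻¹ * y⁻¹ = x * (y * x⁻¹ * y⁻¹) := by group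
            rw [h6]; exact h5
          · have h4 := hKn h x (hTE hx) y hy
            exact (K h).mul_mem h4 ((K h).inv_mem hy)
        rw [hbot, Subgroup.mem_bot] at h3
        have h7 : x * y * x⁻¹ = y := by
          rw [mul_inv_eq_one] at h3; exact h3
        rw [mul_inv_eq_iff_eq_mul] at h7
        exact h7
      -- `T` is not commutative
      have hTnc : ∃ a ∈ T, ∃ b ∈ T, a * b ≠ b * a := by
        by_contra hcon
        push Not at hcon
        apply huv
        have hall : ∀ h k, ∀ x ∈ K h, ∀ y ∈ K k, x * y = y * x := by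
          rintro h k x ⟨a, ha, rfl⟩ y ⟨b, hb, rfl⟩
          show h * a * h⁻¹ * (k * b * k⁻¹) = k * b * k⁻¹ * (h * a * h⁻¹)
          have h1 : (h⁻¹ * k) * b * (h⁻¹ * k)⁻¹ ∈ K (h⁻¹ * k) := hKmem _ b hb
          have h2 : a * ((h⁻¹ * k) * b * (h⁻¹ * k)⁻¹) = ((h⁻¹ * k) * b * (h⁻¹ * k)⁻¹) * a := by
            by_cases hk : K (h⁻¹ * k) = T
            · rw [hk] at h1
              exact hcon a ha _ h1
            · exact hint _ hk a ha _ h1
          calc h * a * h⁻¹ * (k * b * k⁻¹)
              = h * (a * ((h⁻¹ * k) * b * (h⁻¹ * k)⁻¹)) * h⁻¹ := by group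
            _ = h * (((h⁻¹ * k) * b * (h⁻¹ * k)⁻¹) * a) * h⁻¹ := by rw [h2]
            _ = k * b * k⁻¹ * (h * a * h⁻¹) := by group
        have hu : E ≤ Subgroup.centralizer (E : Set H) := by
          rw [← hsup]
          apply iSup_le
          intro h x hx
          rw [Subgroup.mem_centralizer_iff]
          have hle : (⨆ k, K k) ≤ Subgroup.centralizer ({x} : Set H) := by
            apply iSup_le
            intro k y hy
            rw [Subgroup.mem_centralizer_singleton_iff]
            exact (hall h k x hx y hy).symm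
          intro y hy
          have := hle hy
          rw [Subgroup.mem_centralizer_singleton_iff] at this
          exact this
        have := hu huE
        rw [Subgroup.mem_centralizer_iff] at this
        exact (this v hvE).symm
      -- `T` has even order
      have hTeven : Even (Nat.card T) := by
        by_contra hodd
        rw [Nat.not_even_iff_odd] at hodd
        obtain ⟨-, ho1, ho2, -⟩ := hOC E
        have hle : E ≤ (oc E).map E.subtype := by
          have h0 : (⨆ h, K h) ≤ (oc E).map E.subtype := by
            apply iSup_le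
            intro h x hx
            have h1 : ((K h).subgroupOf E).Normal := by
              refine ⟨?_⟩
              intro n hn g
              exact hKn h g g.2 n hn
            have h2 : Odd (Nat.card ((K h).subgroupOf E)) := by
              rw [Nat.card_congr (Subgroup.subgroupOfEquivOfLe (hKE h)).toEquiv, hKcard h]
              exact hodd
            have h3 := ho2 _ h1 h2
            exact ⟨⟨x, hKE h hx⟩, h3 hx, rfl⟩
          rw [hsup] at h0
          exact h0
        have h1 : (oc E) = ⊤ := by
          rw [eq_top_iff]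
          rintro x -
          obtain ⟨y, hy, hyx⟩ := hle x.2
          have : y = x := Subtype.ext hyx
          rw [← this]; exact hy
        rw [h1, Subgroup.card_top] at ho1
        rw [← Nat.not_even_iff_odd] at ho1
        exact ho1 hEe
      -- a conjugate different from `T`
      obtain ⟨h, hh⟩ : ∃ h, K h ≠ T := by
        by_contra hcon
        push Not at hcon
        apply hTe
        rw [← hsup]
        apply le_antisymm
        · rw [← hcon 1]; exact le_iSup K 1
        · apply iSup_le
          intro k
          rw [hcon k]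
      -- Sylow subgroups
      obtain ⟨Q⟩ : Nonempty (Sylow 2 T) := inferInstance
      obtain ⟨k, hk⟩ : ∃ k, Nat.card Q = 2 ^ k := ⟨_, Sylow.card_eq_multiplicity Q⟩
      have hQ2 : 2 ∣ Nat.card Q := Sylow.dvd_card_of_dvd_card Q hTeven.two_dvd
      have hQpow : ∀ x ∈ (Q : Subgroup T), x ^ Nat.card Q = 1 := by
        intro x hx
        have h1 : (⟨x, hx⟩ : Q) ^ Nat.card Q = 1 := pow_card_eq_one'
        exact congrArg (fun z : Q => (z : T)) h1
      let Qm : Subgroup H := (Q : Subgroup T).map T.subtype
      let Qh : Subgroup H := Qm.map (MulAut.conj h).toMonoidHom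
      have hQmT : Qm ≤ T := by
        rintro x ⟨y, -, rfl⟩
        exact y.2
      have hQhK : Qh ≤ K h := Subgroup.map_mono hQmT
      have hQmc : Nat.card Qm = Nat.card Q :=
        (Nat.card_congr ((Q : Subgroup T).equivMapOfInjective _ T.subtype_injective).toEquiv).symm
      have hQhc : Nat.card Qh = Nat.card Q := by
        rw [← hQmc]
        exact (Nat.card_congr (Qm.equivMapOfInjective _ (MulAut.conj h).injective).toEquiv).symm
      have hQmpow : ∀ x ∈ Qm, x ^ Nat.card Q = 1 := by
        rintro x ⟨y, hy, rfl⟩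
        rw [← map_pow, hQpow y hy, map_one]
      have hQhpow : ∀ x ∈ Qh, x ^ Nat.card Q = 1 := by
        rintro x ⟨y, hy, rfl⟩
        rw [← map_pow, hQmpow y hy, map_one]
      have hcomm : ∀ (a : Qm) (b : Qh), Commute (Qm.subtype a) (Qh.subtype b) :=
        fun a b => hint h hh a (hQmT a.2) b (hQhK b.2)
      let f : Qm × Qh →* H := Qm.subtype.noncommCoprod Qh.subtype hcomm
      have hfinj : Function.Injective f := by
        rw [injective_iff_map_eq_one]
        rintro ⟨a, b⟩ hab
        have h1 : (a : H) * (b : H) = 1 := hab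
        have h2 : (a : H) ∈ T ⊓ K h := by
          refine ⟨hQmT a.2, ?_⟩
          rw [mul_eq_one_iff_eq_inv] at h1
          rw [h1]
          exact (K h).inv_mem (hQhK b.2)
        rw [hbot' h hh, Subgroup.mem_bot] at h2
        rw [h2, one_mul] at h1
        exact Prod.ext (Subtype.ext h2) (Subtype.ext h1)
      have hRc : Nat.card f.range = Nat.card Q * Nat.card Q := by
        rw [← Nat.card_congr (MonoidHom.ofInjective hfinj).toEquiv, Nat.card_prod, hQmc, hQhc]
      have hRpow : ∀ x ∈ f.range, x ^ Nat.card Q = 1 := by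
        rintro x ⟨⟨a, b⟩, rfl⟩
        show ((a : H) * (b : H)) ^ Nat.card Q = 1
        have hc2 : Commute (a : H) (b : H) := hcomm a b
        rw [hc2.mul_pow, hQmpow a a.2, hQhpow b b.2, one_mul]
      have hRp : IsPGroup 2 f.range := by
        intro x
        refine ⟨k, ?_⟩
        apply Subtype.ext
        rw [Subgroup.coe_pow, ← hk]
        exact hRpow x x.2
      obtain ⟨x, hxR, hx⟩ := MN_ord S C hCS hC hcard f.range hRp
      have hQpos : 0 < Nat.card Q := Nat.card_pos
      have hox : orderOf x ≤ Nat.card Q := orderOf_le_of_pow_eq_one hQpos (hRpow x hxR)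
      have hQle : Nat.card Q ≤ 2 := by
        rw [hRc] at hx
        nlinarith
      have hQeq : Nat.card Q = 2 := by
        have := Nat.le_of_dvd hQpos hQ2
        omega
      have hQcyc : IsCyclic Q := isCyclic_of_prime_card (p := 2) hQeq
      obtain ⟨N, hNn, hNodd, hNi⟩ := hTC T Q hQcyc
      rw [hQeq] at hNi
      have hNnE : ∀ e ∈ E, ∀ t ∈ N.map T.subtype, e * t * e⁻¹ ∈ N.map T.subtype := by
        rintro e he x ⟨n, hn, rfl⟩
        have hyT := hTn e he n n.2
        have hyo : Odd (orderOf (⟨e * n * e⁻¹, hyT⟩ : T)) := by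
          have h1 : orderOf (⟨e * n * e⁻¹, hyT⟩ : T) = orderOf (n : H) := by
            rw [← Subgroup.orderOf_coe]
            exact orderOf_injective (MulAut.conj e).toMonoidHom (MulAut.conj e).injective (n : H)
          have h2 : orderOf (n : H) ∣ Nat.card N := by
            have h3 : orderOf (n : H) = orderOf (⟨n, hn⟩ : N) := by
              rw [Subgroup.orderOf_coe]
              exact (Subgroup.orderOf_coe (⟨n, hn⟩ : N)).symm ▸ rfl
            rw [h3]
            exact orderOf_dvd_natCard _
          rw [h1]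
          exact Odd.of_dvd_nat hNodd h2
        have hy2 : (⟨e * n * e⁻¹, hyT⟩ : T) * ⟨e * n * e⁻¹, hyT⟩ ∈ N :=
          Subgroup.mul_self_mem_of_index_two hNi _
        obtain ⟨j, hj⟩ := hyo
        have hy3 : (⟨e * n * e⁻¹, hyT⟩ : T) ∈ N := by
          have h4 : (⟨e * n * e⁻¹, hyT⟩ : T) ^ (2 * j + 1) = 1 := by
            rw [← hj]; exact pow_orderOf_eq_one _
          rw [pow_succ, pow_mul, pow_two] at h4
          have h5 := eq_inv_of_mul_eq_one_right h4
          rw [h5]
          exact N.inv_mem (N.pow_mem hy2 j)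
        exact ⟨_, hy3, rfl⟩
      have hNT : N.map T.subtype ≤ T := by
        rintro x ⟨y, -, rfl⟩
        exact y.2
      have hNc : Nat.card (N.map T.subtype) = Nat.card N :=
        (Nat.card_congr (N.equivMapOfInjective _ T.subtype_injective).toEquiv).symm
      have hNci := Subgroup.card_mul_index N
      rw [hNi] at hNci
      have hNpos : 0 < Nat.card N := Nat.card_pos
      rcases hTmin' _ hNT hNnE with h1 | h1
      · rw [h1, Subgroup.card_bot] at hNc
        have hT2 : Nat.card T = 2 := by rw [← hNci, ← hNc]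
        have hTcyc : IsCyclic T := isCyclic_of_prime_card (p := 2) hT2
        obtain ⟨a, ha, b, hb, hab⟩ := hTnc
        apply hab
        obtain ⟨g, hg⟩ := hTcyc.exists_generator
        obtain ⟨i, hi⟩ := hg ⟨a, ha⟩
        obtain ⟨l, hl⟩ := hg ⟨b, hb⟩
        have h2 : (⟨a, ha⟩ : T) * ⟨b, hb⟩ = ⟨b, hb⟩ * ⟨a, ha⟩ := by
          rw [← hi, ← hl]
          exact zpow_mul_comm g i l
        exact congrArg (fun z : T => (z : H)) h2
      · rw [h1] at hNc
        omega

end Pool.Agent.helper53.AU
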