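import Pool.Agent.helper87.AU.SpecQ1

namespace Pool.Agent.helper53.AU

open scoped Classical

variable {k F : Type} [Field k] [Field F] [Algebra k F]

/-- inclusion of valuation rings implies equality of places -/
theorem QV2_incl (P P' : Place k F) (h : ∀ f : F, f ≠ 0 → 0 ≤ P.ord f → 0 ≤ P'.ord f) :
    P = P' := by
  obtain ⟨t, ht, ht1⟩ := P.exists_uniformizer
  obtain ⟨s, hs, hs1⟩ := P'.exists_uniformizer
  have hunit : ∀ f : F, f ≠ 0 → P.ord f = 0 → P'.ord f = 0 := by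
    intro f hf h0
    have h1 := h f hf (by omega)
    have h2 := h f⁻¹ (inv_ne_zero hf) (by rw [P.ord_inv hf]; omega)
    rw [P'.ord_inv hf] at h2
    omega
  have hmain : ∀ f : F, f ≠ 0 → P'.ord f = P.ord f * P'.ord t := by
    intro f hf
    have h1 : P.ord (f / t ^ (P.ord f)) = 0 := by
      rw [P.ord_div hf (zpow_ne_zero _ ht), P.ord_zpow ht, ht1]; ring
    have h2 := hunit _ (div_ne_zero hf (zpow_ne_zero _ ht)) h1
    rw [P'.ord_div hf (zpow_ne_zero _ ht), P'.ord_zpow ht] at h2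
    omega
  have he : P'.ord t = 1 := by
    have h1 := hmain s hs
    rw [hs1] at h1
    have h2 := h t ht (by omega)
    have h3 : P'.ord t ∣ 1 := ⟨P.ord s, by rw [mul_comm]; exact h1⟩
    exact Int.eq_one_of_dvd_one h2 h3
  apply Place.ext
  funext f
  by_cases hf : f = 0
  · subst hf
    rw [P.ord_zero, P'.ord_zero]
  · rw [hmain f hf, he, mul_one]

theorem QV2_sep (P P' : Place k F) (h : P ≠ P') :
    ∃ z : F, z ≠ 0 ∧ 0 < P.ord z ∧ P'.ord z < 0 := by
  have h1 : ∃ f : F, f ≠ 0 ∧ 0 ≤ P.ord f ∧ P'.ord f < 0 := by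
    by_contra hcon
    push Not at hcon
    exact h (QV2_incl P P' hcon)
  have h2 : ∃ f : F, f ≠ 0 ∧ 0 ≤ P'.ord f ∧ P.ord f < 0 := by
    by_contra hcon
    push Not at hcon
    exact h (QV2_incl P' P hcon).symm
  obtain ⟨f, hf, hf1, hf2⟩ := h1
  obtain ⟨g, hg, hg1, hg2⟩ := h2
  refine ⟨f / g, div_ne_zero hf hg, ?_, ?_⟩
  · rw [P.ord_div hf hg]; omega
  · rw [P'.ord_div hf hg]; omega

/-- orders of a sum of two elements of different orders -/
theorem QV2_add (P : Place k F) {a b : F} (ha : a ≠ 0) (hb : b ≠ 0) (h : P.ord a ≠ P.ord b) :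
    a + b ≠ 0 ∧ P.ord (a + b) ≤ P.ord a := by
  rcases lt_or_gt_of_ne h with h1 | h1
  · obtain ⟨h2, h3⟩ := Place.ord_add_eq (P := P) ha (Or.inr (by omega) : P.Ge (P.ord a + 1) b)
    exact ⟨h2, h3.le⟩
  · obtain ⟨h2, h3⟩ := Place.ord_add_eq (P := P) hb (Or.inr (by omega) : P.Ge (P.ord b + 1) a)
    rw [add_comm] at h2 h3
    exact ⟨h2, by omega⟩

theorem QV2_b (P : Place k F) (S : Finset (Place k F)) (hP : P ∉ S) :
    ∃ z : F, z ≠ 0 ∧ 0 < P.ord z ∧ ∀ Q ∈ S, Q.ord z < 0 := by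
  induction S using Finset.induction_on with
  | empty =>
    obtain ⟨t, ht, ht1⟩ := P.exists_uniformizer
    exact ⟨t, ht, by omega, by simp⟩
  | insert Q S hQS ih =>
    obtain ⟨y, hy, hy1, hy2⟩ := ih (fun h => hP (Finset.mem_insert_of_mem h))
    by_cases hQ : Q.ord y < 0
    · refine ⟨y, hy, hy1, ?_⟩
      intro R hR
      rcases Finset.mem_insert.1 hR with rfl | h
      · exact hQ
      · exact hy2 R h
    · push Not at hQ
      obtain ⟨x, hx, hx1, hx2⟩ := QV2_sep P Q (fun h => hP (by rw [h]; exact Finset.mem_insert_self _ _))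
      set r : ℕ := 1 + ∑ R ∈ S, (R.ord y).natAbs with hr
      have hr1 : (1 : ℤ) ≤ r := by rw [hr]; push_cast; have := Finset.sum_nonneg (s := S) (f := fun R => |R.ord y|) (fun _ _ => abs_nonneg _); simpa using this
      have hxr : x ^ r ≠ 0 := pow_ne_zero _ hx
      have hQx : Q.ord (x ^ r) < 0 := by
        rw [Q.ord_pow hx]; nlinarith
      have hQ3 := QV2_add Q hxr hy (by omega)
      rw [add_comm] at hQ3
      refine ⟨y + x ^ r, hQ3.1, ?_, ?_⟩
      · have h1 : P.Ge 1 y := Or.inr (by omega)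
        have h2 : P.Ge 1 (x ^ r) := by
          right; rw [P.ord_pow hx]; nlinarith
        have h3 := (h1.add h2).le hQ3.1
        omega
      · intro R hR
        rcases Finset.mem_insert.1 hR with rfl | h
        · omega
        · have h4 := hy2 R h
          have h5 : (R.ord y).natAbs ≤ ∑ R ∈ S, (R.ord y).natAbs :=
            Finset.single_le_sum (f := fun R : Place k F => (R.ord y).natAbs) (fun _ _ => Nat.zero_le _) h
          have h6 : R.ord y ≠ R.ord (x ^ r) := by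
            rw [R.ord_pow hx]
            intro h7
            have h8 : -(r : ℤ) < R.ord y := by
              have h10 : (R.ord y).natAbs < r := by omega
              omega
            by_cases h9 : R.ord x < 0
            · nlinarith
            · push Not at h9
              nlinarith
          have h7 := QV2_add R hy hxr h6
          omega

theorem QV2_c (P : Place k F) (S : Finset (Place k F)) (hP : P ∉ S) (M : ℕ) :
    ∃ w : F, P.Ge M (w - 1) ∧ ∀ Q ∈ S, Q.Ge M w := by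
  obtain ⟨z, hz, hz1, hz2⟩ := QV2_b P S hP
  have hzr : z ^ (M + 1) ≠ 0 := pow_ne_zero _ hz
  have h1 : P.ord (z ^ (M + 1)) = (M + 1) * P.ord z := by rw [P.ord_pow hz]; push_cast; ring
  have h2 : (M : ℤ) + 1 ≤ P.ord (z ^ (M + 1)) := by rw [h1]; nlinarith
  obtain ⟨h3, h4⟩ := Place.ord_add_eq (P := P) (f := 1) (g := z ^ (M + 1)) one_ne_zero
    (Or.inr (by rw [P.ord_one]; omega))
  refine ⟨1 / (1 + z ^ (M + 1)), ?_, ?_⟩
  · right
    have h5 : 1 / (1 + z ^ (M + 1)) - 1 = - (z ^ (M + 1) / (1 + z ^ (M + 1))) := by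
      field_simp
      ring
    rw [h5, P.ord_neg, P.ord_div hzr h3, h4, P.ord_one]
    omega
  · intro Q hQ
    right
    have h5 := hz2 Q hQ
    have h6 : Q.ord (z ^ (M + 1)) = (M + 1) * Q.ord z := by rw [Q.ord_pow hz]; push_cast; ring
    have h7 : Q.ord (z ^ (M + 1)) ≤ -(M + 1) := by rw [h6]; nlinarith
    have h8 := QV2_add Q hzr one_ne_zero (by rw [Q.ord_one]; omega)
    rw [add_comm] at h8
    rw [Q.ord_div one_ne_zero h3, Q.ord_one]
    omega

/-- QV2 -/
theorem QV2 : QV2_stmt := by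
  intro k F _ _ _ S N a
  set M : ℕ := N.natAbs + ∑ P ∈ S, ∑ Q ∈ S, (P.ord (a Q)).natAbs with hM
  have hMle : ∀ P ∈ S, ∀ Q ∈ S, N ≤ M + P.ord (a Q) := by
    intro P hP Q hQ
    have h1 : (P.ord (a Q)).natAbs ≤ ∑ Q ∈ S, (P.ord (a Q)).natAbs :=
      Finset.single_le_sum (f := fun Q => (P.ord (a Q)).natAbs) (fun _ _ => Nat.zero_le _) hQ
    have h2 : ∑ Q ∈ S, (P.ord (a Q)).natAbs ≤ ∑ P ∈ S, ∑ Q ∈ S, (P.ord (a Q)).natAbs :=
      Finset.single_le_sum (f := fun P : Place k F => ∑ Q ∈ S, (P.ord (a Q)).natAbs)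
        (fun _ _ => Nat.zero_le _) hP
    omega
  have hw : ∀ P : Place k F, ∃ w : F, P.Ge M (w - 1) ∧ ∀ Q ∈ S.erase P, Q.Ge M w :=
    fun P => QV2_c P (S.erase P) (Finset.notMem_erase P S) M
  choose w hw1 hw2 using hw
  refine ⟨∑ Q ∈ S, w Q * a Q, ?_⟩
  intro P hP
  have h1 : ∑ Q ∈ S, w Q * a Q - a P = (w P - 1) * a P + ∑ Q ∈ S.erase P, w Q * a Q := by
    rw [← Finset.add_sum_erase S _ hP]
    ring
  rw [h1]
  apply Place.Ge.add
  · exact ((hw1 P).mul (P.ge_ord (a P))).mono (hMle P hP P hP)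
  · apply Place.Ge.sum
    intro Q hQ
    have hQS := Finset.mem_of_mem_erase hQ
    have hPQ : P ∈ S.erase Q := Finset.mem_erase.2 ⟨(Finset.ne_of_mem_erase hQ).symm, hP⟩
    exact ((hw2 Q P hPQ).mul (P.ge_ord (a Q))).mono (hMle P hP Q hQS)

end Pool.Agent.helper53.AU
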